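import Mathlib
import Pool.Agent.Helper39.KZ.Stmts

/-!
# Crouzeix: positivity of the kernel (row LVL)
-/

set_option autoImplicit false

open Metric Set Polynomial Filter Topology

namespace KZ

/-- minimum principle for the real part -/
theorem lvl_min {q : ℂ → ℂ} (hq : DifferentiableOn ℂ q (ball 0 1))
    (h : ∀ δ > 0, ∃ r₀ < 1, ∀ t ∈ ball (0 : ℂ) 1, r₀ < ‖t‖ → -δ ≤ (q t).re)
    {t : ℂ} (ht : t ∈ ball (0 : ℂ) 1) : 0 ≤ (q t).re := by
  refine le_of_forall_pos_le_add fun δ hδ => ?_
  obtain ⟨r₀, hr₀, h1⟩ := h δ hδ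
  rw [mem_ball_zero_iff] at ht
  obtain ⟨r, hr1, hr2⟩ := exists_between (max_lt hr₀ ht)
  have hrpos : 0 < r := lt_of_le_of_lt (norm_nonneg t) (lt_of_le_of_lt (le_max_right _ _) hr1)
  have hsub : closedBall (0 : ℂ) r ⊆ ball 0 1 := closedBall_subset_ball hr2
  have hd : DifferentiableOn ℂ (fun u => Complex.exp (-q u)) (ball 0 1) :=
    (hq.neg).cexp
  have hdc : DiffContOnCl ℂ (fun u => Complex.exp (-q u)) (ball 0 r) := by
    apply DifferentiableOn.diffContOnCl
    rw [closure_ball _ hrpos.ne']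
    exact hd.mono hsub
  have key : ‖Complex.exp (-q t)‖ ≤ Real.exp δ := by
    refine Complex.norm_le_of_forall_mem_frontier_norm_le isBounded_ball hdc (fun z hz => ?_) ?_
    · rw [frontier_ball _ hrpos.ne', mem_sphere_zero_iff_norm] at hz
      rw [Complex.norm_exp]
      apply Real.exp_le_exp.mpr
      have := h1 z (by rw [mem_ball_zero_iff, hz]; exact hr2)
        (by rw [hz]; exact lt_of_le_of_lt (le_max_left _ _) hr1)
      simp only [Complex.neg_re]
      linarith
    · apply subset_closure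
      rw [mem_ball_zero_iff]
      exact lt_of_le_of_lt (le_max_right _ _) hr1
  rw [Complex.norm_exp] at key
  have := Real.exp_le_exp.mp key
  simp only [Complex.neg_re] at this
  linarith

/-- strict inequality case -/
theorem lvl_lt (hT : ST_TAU) (hS : ST_STAR) (hL : ST_LIM) (K : Set ℂ) (g : ℂ → ℂ) (hK : Body K)
    (hg : Ext K g) {s t : ℂ} (ht : t ∈ ball (0 : ℂ) 1) (hst : ‖s‖ < ‖t‖) :
    0 ≤ (Qk g s t).re := by
  obtain ⟨htau, hds, htau0, hdne, hgt, hgne, htne⟩ := hT K g hK hg
  have ht0 : t ≠ 0 := by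
    intro h
    rw [h, norm_zero] at hst
    exact absurd hst (not_lt.mpr (norm_nonneg s))
  set η : ℂ := s / t with hη
  have hηn : ‖η‖ < 1 := by
    rw [hη, norm_div, div_lt_one (norm_pos_iff.mpr ht0)]
    exact hst
  have hη1 : η ≠ 1 := by
    intro h
    rw [h, norm_one] at hηn
    exact lt_irrefl _ hηn
  have hηt : η * t = s := by rw [hη]; field_simp
  have hmaps : ∀ u ∈ ball (0 : ℂ) 1, η * u ∈ ball (0 : ℂ) 1 := by
    intro u hu
    rw [mem_ball_zero_iff] at hu ⊢
    rw [norm_mul]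
    calc ‖η‖ * ‖u‖ ≤ 1 * ‖u‖ := by gcongr
      _ < 1 := by rw [one_mul]; exact hu
  -- the denominator
  have hden : ∀ u ∈ ball (0 : ℂ) 1, dslope g 0 u - η * dslope g 0 (η * u) ≠ 0 := by
    intro u hu h0
    by_cases hu0 : u = 0
    · subst hu0
      rw [mul_zero] at h0
      have : (1 - η) * dslope g 0 0 = 0 := by linear_combination h0
      rcases mul_eq_zero.mp this with h | h
      · exact hη1 (sub_eq_zero.mp h).symm
      · exact hdne 0 hu h
    · have h2 : g u = g (η * u) := by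
        rw [hgt u, hgt (η * u)]
        linear_combination u * h0
      have h3 := hg.inj hu (hmaps u hu) h2
      have h4 : (1 - η) * u = 0 := by linear_combination h3
      rcases mul_eq_zero.mp h4 with h | h
      · exact hη1 (sub_eq_zero.mp h).symm
      · exact hu0 h
  let q : ℂ → ℂ := fun u => tau g (η * u) * dslope g 0 u / (dslope g 0 u - η * dslope g 0 (η * u))
  have hmd : DifferentiableOn ℂ (fun u : ℂ => η * u) (ball 0 1) :=
    (differentiable_id.const_mul η).differentiableOn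
  have hq : DifferentiableOn ℂ q (ball 0 1) := by
    refine DifferentiableOn.div ?_ ?_ hden
    · exact (htau.comp hmd hmaps).mul hds
    · exact hds.sub ((hds.comp hmd hmaps).const_mul η)
  have hqQ : ∀ u ∈ ball (0 : ℂ) 1, u ≠ 0 → q u = tau g (η * u) / (1 - g (η * u) * (g u)⁻¹) := by
    intro u hu hu0
    have h1 := hgne u hu hu0
    have h2 := hden u hu
    have h3 := hdne u hu
    have h4 : 1 - g (η * u) * (g u)⁻¹ = (dslope g 0 u - η * dslope g 0 (η * u)) / dslope g 0 u := by
      rw [hgt (η * u), hgt u]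
      field_simp
    show tau g (η * u) * dslope g 0 u / (dslope g 0 u - η * dslope g 0 (η * u)) = _
    rw [h4, div_div_eq_mul_div]
  -- compactness constants
  have hcb : closedBall (0 : ℂ) ‖η‖ ⊆ ball 0 1 := closedBall_subset_ball hηn
  have hcomp : IsCompact (closedBall (0 : ℂ) ‖η‖ ×ˢ K) := (isCompact_closedBall _ _).prod hK.1
  have hgc : ContinuousOn g (closedBall (0 : ℂ) ‖η‖) := hg.diff.continuousOn.mono hcb
  have htc : ContinuousOn (tau g) (closedBall (0 : ℂ) ‖η‖) := htau.continuousOn.mono hcb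
  obtain ⟨M, hM⟩ := (isCompact_closedBall (0 : ℂ) ‖η‖).exists_bound_of_continuousOn hgc
  obtain ⟨T, hTb⟩ := (isCompact_closedBall (0 : ℂ) ‖η‖).exists_bound_of_continuousOn htc
  have h0cb : (0 : ℂ) ∈ closedBall (0 : ℂ) ‖η‖ := mem_closedBall_self (norm_nonneg _)
  have hM0 : 0 ≤ M := le_trans (norm_nonneg _) (hM 0 h0cb)
  have hT0 : 0 ≤ T := le_trans (norm_nonneg _) (hTb 0 h0cb)
  have hcont : ContinuousOn (fun p : ℂ × ℂ => ‖1 - g p.1 * p.2‖) (closedBall (0 : ℂ) ‖η‖ ×ˢ K) := by
    refine ContinuousOn.norm (continuousOn_const.sub (ContinuousOn.mul ?_ continuousOn_snd))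
    exact hgc.comp continuousOn_fst (fun p hp => hp.1)
  have hne : (closedBall (0 : ℂ) ‖η‖ ×ˢ K).Nonempty :=
    ⟨(0, 0), h0cb, interior_subset hK.2.2⟩
  obtain ⟨p₀, hp₀, hmin⟩ := hcomp.exists_isMinOn hne hcont
  set m : ℝ := ‖1 - g p₀.1 * p₀.2‖ with hm
  have hmpos : 0 < m := by
    rw [hm, norm_pos_iff]
    exact (hS K g hK hg p₀.2 hp₀.2 p₀.1 (hcb hp₀.1)).1
  have hmle : ∀ v ∈ closedBall (0 : ℂ) ‖η‖, ∀ z ∈ K, m ≤ ‖1 - g v * z‖ := by
    intro v hv z hz
    exact hmin (show (v, z) ∈ closedBall (0 : ℂ) ‖η‖ ×ˢ K from ⟨hv, hz⟩)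
  have main : 0 ≤ (q t).re := by
    refine lvl_min hq (fun δ hδ => ?_) ht
    -- choose ε
    set ε : ℝ := min (m / (2 * (M + 1))) (δ * (m * (m / 2)) / ((T + 1) * (M + 1))) with hε
    have hεpos : 0 < ε := by
      rw [hε]
      apply lt_min
      · positivity
      · positivity
    obtain ⟨r₀, hr₀, hlim⟩ := hL K g hK hg ε hεpos
    refine ⟨max r₀ 0, max_lt hr₀ one_pos, fun u hu hru => ?_⟩
    have hu0 : u ≠ 0 := by
      intro h
      rw [h, norm_zero] at hru
      exact absurd hru (not_lt.mpr (le_max_right _ _))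
    obtain ⟨z, hz, hzε⟩ := hlim u hu (lt_of_le_of_lt (le_max_left _ _) hru)
    have hv : η * u ∈ closedBall (0 : ℂ) ‖η‖ := by
      rw [mem_closedBall_zero_iff, norm_mul]
      rw [mem_ball_zero_iff] at hu
      calc ‖η‖ * ‖u‖ ≤ ‖η‖ * 1 := by gcongr
        _ = ‖η‖ := mul_one _
    set v : ℂ := η * u with hvdef
    set a : ℂ := (g u)⁻¹ with ha
    have h1 : m ≤ ‖1 - g v * z‖ := hmle v hv z hz
    have hgM : ‖g v‖ ≤ M := hM v hv
    have htT : ‖tau g v‖ ≤ T := hTb v hv
    have h2 : ‖g v * (a - z)‖ ≤ m / 2 := by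
      rw [norm_mul]
      calc ‖g v‖ * ‖a - z‖ ≤ (M + 1) * ε := by
            apply mul_le_mul (by linarith) hzε.le (norm_nonneg _) (by positivity)
        _ ≤ (M + 1) * (m / (2 * (M + 1))) := by
            apply mul_le_mul_of_nonneg_left (min_le_left _ _) (by positivity)
        _ = m / 2 := by field_simp
    have h3 : m / 2 ≤ ‖1 - g v * a‖ := by
      have h4 : 1 - g v * z = (1 - g v * a) + g v * (a - z) := by ring
      have h5 : ‖1 - g v * z‖ ≤ ‖1 - g v * a‖ + ‖g v * (a - z)‖ := by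
        rw [h4]; exact norm_add_le _ _
      linarith
    have hne1 : 1 - g v * z ≠ 0 := norm_pos_iff.mp (lt_of_lt_of_le hmpos h1)
    have hne2 : 1 - g v * a ≠ 0 := norm_pos_iff.mp (lt_of_lt_of_le (by positivity) h3)
    have h6 : tau g v / (1 - g v * a) - tau g v / (1 - g v * z) =
        tau g v * (g v * (a - z)) / ((1 - g v * z) * (1 - g v * a)) := by
      field_simp
      ring
    have h7 : ‖tau g v / (1 - g v * a) - tau g v / (1 - g v * z)‖ ≤ δ := by
      rw [h6, norm_div, norm_mul, norm_mul, norm_mul]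
      rw [div_le_iff₀ (by positivity)]
      calc ‖tau g v‖ * (‖g v‖ * ‖a - z‖) ≤ (T + 1) * ((M + 1) * ε) := by
            apply mul_le_mul (by linarith) _ (by positivity) (by positivity)
            apply mul_le_mul (by linarith) hzε.le (norm_nonneg _) (by positivity)
        _ ≤ (T + 1) * ((M + 1) * (δ * (m * (m / 2)) / ((T + 1) * (M + 1)))) := by
            apply mul_le_mul_of_nonneg_left _ (by positivity)
            apply mul_le_mul_of_nonneg_left (min_le_right _ _) (by positivity)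
        _ = δ * (m * (m / 2)) := by field_simp
        _ ≤ δ * (‖1 - g v * z‖ * ‖1 - g v * a‖) := by
            apply mul_le_mul_of_nonneg_left _ hδ.le
            apply mul_le_mul h1 h3 (by positivity) (norm_nonneg _)
    rw [hqQ u hu hu0]
    have h8 : 0 ≤ (tau g v / (1 - g v * z)).re := (hS K g hK hg z hz v (hcb hv)).2
    have h9 := (abs_le.mp (le_trans (Complex.abs_re_le_norm _) h7)).1
    rw [Complex.sub_re] at h9
    linarith
  have hs : s ∈ ball (0 : ℂ) 1 := by rw [← hηt]; exact hmaps t ht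
  have hQ : Qk g s t = q t := by
    rw [hqQ t ht ht0, hηt, Qk]
    have h1 := hgne t ht ht0
    have h2 : g t - g s ≠ 0 := by
      intro h
      have := hg.inj ht hs (sub_eq_zero.mp h)
      rw [this] at hst
      exact lt_irrefl _ hst
    have h3 : 1 - g s * (g t)⁻¹ = (g t - g s) / g t := by field_simp
    rw [h3, div_div_eq_mul_div]
  rw [hQ]
  exact main

/-- LVL -/
theorem st_LVL (hT : ST_TAU) (hS : ST_STAR) (hL : ST_LIM) : ST_LVL := by
  intro K g hK hg s hs t ht hst hne
  rcases lt_or_eq_of_le hst with h | h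
  · exact lvl_lt hT hS hL K g hK hg ht h
  · obtain ⟨htau, -⟩ := hT K g hK hg
    have ht0 : t ≠ 0 := by
      intro h0
      rw [h0, norm_zero, norm_eq_zero] at h
      exact hne (by rw [h, h0])
    have hs0 : 0 < ‖s‖ := by rw [h]; exact norm_pos_iff.mpr ht0
    have hden : g t - g s ≠ 0 := by
      intro h1
      exact hne (hg.inj ht hs (sub_eq_zero.mp h1)).symm
    have hsn : ball (0 : ℂ) 1 ∈ 𝓝 s := isOpen_ball.mem_nhds hs
    have hcg : ContinuousAt g s := (hg.diff.continuousOn).continuousAt hsn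
    have hct : ContinuousAt (tau g) s := htau.continuousOn.continuousAt hsn
    have hcQ : ContinuousAt (fun u => Qk g u t) s := by
      unfold Qk
      exact (hct.mul continuousAt_const).div (continuousAt_const.sub hcg) hden
    have hpath : Tendsto (fun l : ℝ => (l : ℂ) * s) (𝓝[<] 1) (𝓝 s) := by
      have : Continuous (fun l : ℝ => (l : ℂ) * s) := by fun_prop
      have h1 := this.tendsto 1
      simp only [Complex.ofReal_one, one_mul] at h1
      exact h1.mono_left nhdsWithin_le_nhds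
    have hlim : Tendsto (fun l : ℝ => (Qk g ((l : ℂ) * s) t).re) (𝓝[<] 1) (𝓝 (Qk g s t).re) :=
      (Complex.continuous_re.tendsto _).comp (hcQ.tendsto.comp hpath)
    refine ge_of_tendsto hlim ?_
    have hev : ∀ᶠ l : ℝ in 𝓝[<] 1, l ∈ Ioo (0 : ℝ) 1 := Ioo_mem_nhdsLT one_pos
    filter_upwards [hev] with l hl
    apply lvl_lt hT hS hL K g hK hg ht
    rw [norm_mul, Complex.norm_real, Real.norm_of_nonneg hl.1.le, ← h]
    calc l * ‖s‖ < 1 * ‖s‖ := by
          apply mul_lt_mul_of_pos_right hl.2 hs0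
      _ = ‖s‖ := one_mul _

end KZ
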