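import Pool.Agent.Helper91.KZ.StT

/-!
# MP_1d885e_al, module TWP: products of twisted modules
-/

namespace Pool.Agent.Helper20.KZ

open Polynomial TensorProduct Pool.Agent.Helper91.KZ

universe u

noncomputable section

/-- multiplication by the elements of `X` as `N`-linear maps -/
def TWP_l {N X V : Type u} [Field N] [Ring X] [AddCommGroup V] [Module N V] [Module X V]
    (hx : ∀ (n : N) (x : X) (v : V), n • x • v = x • n • v) : X →+* Module.End N V where
  toFun x :=
    { toFun := fun v => x • v
      map_add' := smul_add x
      map_smul' := fun n v => (hx n x v).symm }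
  map_one' := by ext v; simp
  map_mul' := fun x y => by ext v; simp [mul_smul]
  map_zero' := by ext v; simp
  map_add' := fun x y => by ext v; simp [add_smul]

theorem TWP_l_apply {N X V : Type u} [Field N] [Ring X] [AddCommGroup V] [Module N V] [Module X V]
    (hx : ∀ (n : N) (x : X) (v : V), n • x • v = x • n • v) (x : X) (v : V) :
    TWP_l hx x v = x • v := rfl

/-- density -/
theorem TWP_dens {N X V : Type u} [Field N] [Ring X] [AddCommGroup V] [Module N V] [Module X V]
    (hx : ∀ (n : N) (x : X) (v : V), n • x • v = x • n • v) [Nontrivial V]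
    [FiniteDimensional N V]
    (sm : ∀ W : AddSubgroup V, (∀ (n : N), ∀ w ∈ W, n • w ∈ W) →
      (∀ (x : X), ∀ w ∈ W, x • w ∈ W) → W = ⊥ ∨ W = ⊤)
    (full : ∀ f : V →+ V, (∀ (n : N) (v : V), f (n • v) = n • f v) →
      (∀ (x : X) (v : V), f (x • v) = x • f v) → ∃ n : N, ∀ v, f v = n • v)
    (f : Module.End N V) : f ∈ Algebra.adjoin N (Set.range (TWP_l hx)) := by
  set A := Algebra.adjoin N (Set.range (TWP_l hx)) with hA
  have hl : ∀ x : X, TWP_l hx x ∈ A := fun x => Algebra.subset_adjoin ⟨x, rfl⟩
  have hn : ∀ n : N, algebraMap N (Module.End N V) n ∈ A := fun n => A.algebraMap_mem n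
  have : IsSimpleModule A V := by
    have key : ∀ p : Submodule A V, p = ⊥ ∨ p = ⊤ := by
      intro p
      have h1 : ∀ (n : N), ∀ w ∈ p.toAddSubgroup, n • w ∈ p.toAddSubgroup := by
        intro n w hw
        exact p.smul_mem (⟨_, hn n⟩ : A) hw
      have h2 : ∀ (x : X), ∀ w ∈ p.toAddSubgroup, x • w ∈ p.toAddSubgroup := by
        intro x w hw
        exact p.smul_mem (⟨_, hl x⟩ : A) hw
      rcases sm p.toAddSubgroup h1 h2 with h | h
      · left
        rw [eq_bot_iff]
        intro v hv
        have : v ∈ p.toAddSubgroup := hv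
        rw [h] at this
        exact this
      · right
        rw [eq_top_iff]
        intro v _
        have : v ∈ p.toAddSubgroup := by rw [h]; trivial
        exact this
    refine { toIsSimpleOrder := { exists_pair_ne := ⟨⊥, ⊤, ?_⟩, eq_bot_or_eq_top := key } }
    obtain ⟨v, hv⟩ := exists_ne (0 : V)
    intro h
    have : v ∈ (⊤ : Submodule A V) := trivial
    rw [← h] at this
    exact hv this
  have hEnd : ∀ g : Module.End A V, ∃ n : N, ∀ v, g v = n • v := by
    intro g
    refine full g.toAddMonoidHom ?_ ?_
    · intro n v
      exact g.map_smul (⟨_, hn n⟩ : A) v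
    · intro x v
      exact g.map_smul (⟨_, hl x⟩ : A) v
  let f' : Module.End (Module.End A V) V :=
    { toFun := f
      map_add' := f.map_add
      map_smul' := by
        intro g v
        obtain ⟨n, hn'⟩ := hEnd g
        show f (g v) = g (f v)
        rw [hn' v, hn' (f v), f.map_smul] }
  obtain ⟨s, hs⟩ := (Module.Finite.fg_top : (⊤ : Submodule N V).FG)
  obtain ⟨r, hr⟩ := jacobson_density (R := A) f' s
  have : f = (r : Module.End N V) := by
    apply LinearMap.ext_on hs
    intro m hm
    exact hr m hm
  rw [this]
  exact r.2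

/-- the action of `K ⊗ Y` on `V ⊗ W` -/
theorem TWP_exF {E N K Y V W : Type u} [Field E] [Field N] [Algebra E N] [Ring K] [Algebra E K]
    [Ring Y] [Algebra E Y] [AddCommGroup V] [Module N V] [Module K V] [AddCommGroup W]
    [Module N W] [Module Y W]
    (hx : ∀ (n : N) (x : K) (v : V), n • x • v = x • n • v)
    (hy : ∀ (n : N) (x : Y) (v : W), n • x • v = x • n • v)
    (eK : ∀ (e : E) (v : V), algebraMap E N e • v = algebraMap E K e • v)
    (eY : ∀ (e : E) (v : W), algebraMap E N e • v = algebraMap E Y e • v) :
    ∃ F : K ⊗[E] Y →+* Module.End N (V ⊗[N] W), ∀ k y v w,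
      F (k ⊗ₜ y) (v ⊗ₜ w) = (k • v) ⊗ₜ (y • w) := by
  let _ : Algebra E (Module.End N (V ⊗[N] W)) := Algebra.compHom _ (algebraMap E N)
  let f : K →ₐ[E] Module.End N (V ⊗[N] W) :=
    { (Module.End.rTensorAlgHom N V W).toRingHom.comp (TWP_l hx) with
      commutes' := by
        intro e
        refine TensorProduct.ext' ?_
        intro v w
        show (algebraMap E K e • v) ⊗ₜ[N] w = algebraMap E N e • (v ⊗ₜ[N] w)
        rw [← eK, TensorProduct.smul_tmul'] }
  let g : Y →ₐ[E] Module.End N (V ⊗[N] W) :=
    { (Module.End.lTensorAlgHom N W V).toRingHom.comp (TWP_l hy) with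
      commutes' := by
        intro e
        refine TensorProduct.ext' ?_
        intro v w
        show v ⊗ₜ[N] (algebraMap E Y e • w) = algebraMap E N e • (v ⊗ₜ[N] w)
        rw [← eY, TensorProduct.tmul_smul] }
  have hc : ∀ x y, Commute (f x) (g y) := by
    intro x y
    refine TensorProduct.ext' ?_
    intro v w
    rfl
  refine ⟨(Algebra.TensorProduct.lift f g hc).toRingHom, ?_⟩
  intro k y v w
  have : (Algebra.TensorProduct.lift f g hc).toRingHom (k ⊗ₜ y) = f k * g y :=
    Algebra.TensorProduct.lift_tmul f g hc k y
  rw [this]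
  rfl

/-- the action of `B` on `V ⊗ W` -/
theorem TWP_exG {N B V W : Type u} [Field N] [Ring B] [AddCommGroup V] [Module N V]
    [AddCommGroup W] [Module N W] [Module B W]
    (hb : ∀ (n : N) (x : B) (v : W), n • x • v = x • n • v) :
    ∃ G : B →+* Module.End N (V ⊗[N] W), ∀ b v w, G b (v ⊗ₜ w) = v ⊗ₜ (b • w) :=
  ⟨(Module.End.lTensorAlgHom N W V).toRingHom.comp (TWP_l hb), fun _ _ _ => rfl⟩

/-- tensor products of semilinear bijections -/
theorem TWP_exR {N V W : Type u} [Field N] [AddCommGroup V] [Module N V]
    [AddCommGroup W] [Module N W] (g : N ≃+* N) (r : V ≃+ V) (s : W ≃+ W)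
    (hr : ∀ (n : N) v, r (n • v) = g n • r v) (hs : ∀ (n : N) v, s (n • v) = g n • s v) :
    ∃ t : V ⊗[N] W ≃+ V ⊗[N] W, ∀ v w, t (v ⊗ₜ w) = r v ⊗ₜ s w := by
  have hr' : ∀ (n : N) v, r.symm (n • v) = g.symm n • r.symm v := by
    intro n v
    apply r.injective
    rw [hr]
    simp
  have hs' : ∀ (n : N) v, s.symm (n • v) = g.symm n • s.symm v := by
    intro n v
    apply s.injective
    rw [hs]
    simp
  have ex : ∀ (g : N ≃+* N) (r : V ≃+ V) (s : W ≃+ W),
      (∀ (n : N) v, r (n • v) = g n • r v) → (∀ (n : N) v, s (n • v) = g n • s v) →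
      ∃ t : V ⊗[N] W →+ V ⊗[N] W, ∀ v w, t (v ⊗ₜ w) = r v ⊗ₜ s w := by
    intro g r s hr hs
    let f : V →+ W →+ V ⊗[N] W :=
      { toFun := fun v =>
          { toFun := fun w => r v ⊗ₜ s w
            map_zero' := by simp
            map_add' := fun a b => by simp [TensorProduct.tmul_add] }
        map_zero' := by ext w; simp
        map_add' := fun a b => by ext w; simp [TensorProduct.add_tmul] }
    refine ⟨TensorProduct.liftAddHom f ?_, fun v w => rfl⟩
    intro n v w
    show r (n • v) ⊗ₜ[N] s w = r v ⊗ₜ[N] s (n • w)
    rw [hr, hs, TensorProduct.smul_tmul]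
  obtain ⟨t, ht⟩ := ex g r s hr hs
  obtain ⟨t', ht'⟩ := ex g.symm r.symm s.symm hr' hs'
  refine ⟨{ toFun := t, invFun := t', left_inv := ?_, right_inv := ?_, map_add' := t.map_add },
    fun v w => ht v w⟩
  · intro x
    induction x using TensorProduct.induction_on with
    | zero => simp
    | tmul v w => rw [ht, ht']; simp
    | add a b ha hb => rw [map_add, map_add, ha, hb]
  · intro x
    induction x using TensorProduct.induction_on with
    | zero => simp
    | tmul v w => rw [ht', ht]; simp
    | add a b ha hb => rw [map_add, map_add, ha, hb]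

/-- coordinates -/
theorem TWP_coord {N V W : Type u} [Field N] [AddCommGroup V] [Module N V]
    [FiniteDimensional N V] [AddCommGroup W] [Module N W] {ι : Type} [Fintype ι]
    (b : Module.Basis ι N V) :
    ∃ Λ : ι → (V ⊗[N] W →ₗ[N] W), (∀ i v w, Λ i (v ⊗ₜ w) = b.coord i v • w) ∧
      ∀ x, x = ∑ i, b i ⊗ₜ Λ i x := by
  refine ⟨fun i => (TensorProduct.lid N W).toLinearMap ∘ₗ LinearMap.rTensor W (b.coord i),
    fun i v w => rfl, ?_⟩
  intro x
  induction x using TensorProduct.induction_on with
  | zero => simp
  | tmul v w =>
    have h1 : ∀ i, b i ⊗ₜ[N] (((TensorProduct.lid N W).toLinearMap ∘ₗ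
        LinearMap.rTensor W (b.coord i)) (v ⊗ₜ[N] w)) = (b.coord i v • b i) ⊗ₜ[N] w := by
      intro i
      show b i ⊗ₜ[N] (b.coord i v • w) = _
      rw [TensorProduct.tmul_smul, TensorProduct.smul_tmul']
    rw [Finset.sum_congr rfl fun i _ => h1 i, ← TensorProduct.sum_tmul]
    congr 1
    exact (b.sum_repr v).symm
  | add x y hx hy =>
    rw [Finset.sum_congr rfl fun i _ => by rw [map_add, TensorProduct.tmul_add],
      Finset.sum_add_distrib, ← hx, ← hy]

theorem kz_TWP : ST_TWP := by
  intro E N K Y _ _ _ _ _ _ _ S T n a _ hS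
  have hSfd : FiniteDimensional N S.V := by
    apply Module.finite_of_finrank_pos
    rw [hS.fd]
    exact hS.n0
  have hSnt : Nontrivial S.V := S.nt
  have hTnt : Nontrivial T.V := T.nt
  have Sfull : ∀ f : S.V →+ S.V, (∀ (n : N) (v : S.V), f (n • v) = n • f v) →
      (∀ (x : K) (v : S.V), f (x • v) = x • f v) → ∃ n : N, ∀ v, f v = n • v := by
    intro f h1 h2
    obtain ⟨c, hc⟩ := S.full f h1 h2
    obtain ⟨m, hm⟩ := hS.sj c
    refine ⟨m, fun v => ?_⟩
    rw [hc v, ← hm, S.bn]
  have dens := TWP_dens S.nx S.sm Sfull
  obtain ⟨F, hF⟩ := TWP_exF (E := E) S.nx T.nx S.ee T.ee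
  obtain ⟨G, hG⟩ := TWP_exG (V := S.V) T.nb
  have exR := fun g : N ≃ₐ[E] N => TWP_exR (g : N ≃+* N) (S.R g) (T.R g) (S.rn g) (T.rn g)
  choose R' hR' using exR
  let ι := Fin (Module.finrank N S.V)
  let b : Module.Basis ι N S.V := Module.finBasis N S.V
  obtain ⟨Λ, hΛ, hΛs⟩ := TWP_coord (W := T.V) b
  have hpos : 0 < Module.finrank N S.V := by rw [hS.fd]; exact hS.n0
  let i0 : ι := ⟨0, hpos⟩
  have hb0 : b.coord i0 (b i0) = 1 := by simp
  -- rank one maps
  let φ : ι → S.V → Module.End N S.V := fun i u => (b.coord i).smulRight u
  have hφ : ∀ i u (x : S.V ⊗[N] T.V), LinearMap.rTensor T.V (φ i u) x = u ⊗ₜ Λ i x := by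
    intro i u x
    induction x using TensorProduct.induction_on with
    | zero => simp
    | tmul v w =>
      rw [hΛ]
      show (b.coord i v • u) ⊗ₜ[N] w = _
      rw [TensorProduct.smul_tmul]
    | add x y hx hy => rw [map_add, map_add, hx, hy, TensorProduct.tmul_add]
  have hFk : ∀ (k : K) (x : S.V ⊗[N] T.V), F (k ⊗ₜ 1) x = LinearMap.rTensor T.V
      (TWP_l S.nx k) x := by
    intro k x
    induction x using TensorProduct.induction_on with
    | zero => simp
    | tmul v w =>
      rw [hF, one_smul]
      rfl
    | add x y hx hy => rw [map_add, map_add, hx, hy]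
  have hFr : ∀ (r : N) (w : S.V ⊗[N] T.V),
      LinearMap.rTensor T.V (algebraMap N (Module.End N S.V) r) w = r • w := by
    intro r w
    induction w using TensorProduct.induction_on with
    | zero => simp
    | tmul v w => rfl
    | add x y hx hy => rw [map_add, hx, hy, smul_add]
  have hunit : ∀ i w, LinearMap.rTensor T.V (φ i0 (b i)) (b i0 ⊗ₜ[N] w) = b i ⊗ₜ[N] w := by
    intro i w
    rw [hφ, hΛ, hb0, one_smul]
  have hGF : ∀ (x : K ⊗[E] Y) (c : T.B) (v : S.V ⊗[N] T.V), F x (G c v) = G c (F x v) := by
    intro x c v
    induction x using TensorProduct.induction_on with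
    | zero => simp
    | tmul k y =>
      induction v using TensorProduct.induction_on with
      | zero => simp
      | tmul v w => rw [hG, hF, hF, hG, T.xb]
      | add x y hx hy => rw [map_add, map_add, hx, hy, map_add, map_add]
    | add x y hx hy =>
      rw [map_add, LinearMap.add_apply, LinearMap.add_apply, hx, hy, map_add]
  let T' : TW E N (K ⊗[E] Y) :=
    { B := T.B
      V := S.V ⊗[N] T.V
      modX := Module.compHom _ F
      modB := Module.compHom _ G
      R := R'
      U := fun g h => algebraMap N T.B (a g h) * T.U g h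
      nt := by
        obtain ⟨w, hw⟩ := exists_ne (0 : T.V)
        refine ⟨b i0 ⊗ₜ w, 0, ?_⟩
        intro h
        have := congrArg (Λ i0) h
        rw [hΛ, hb0, one_smul, map_zero] at this
        exact hw this
      nx := fun m x v => ((F x).map_smul m v).symm
      nb := fun m x v => ((G x).map_smul m v).symm
      xb := fun x c v => hGF x c v
      ee := by
        intro e v
        show algebraMap E N e • v = F (algebraMap E (K ⊗[E] Y) e) v
        rw [Algebra.TensorProduct.algebraMap_apply]
        induction v using TensorProduct.induction_on with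
        | zero => simp
        | tmul v w => rw [hF, one_smul, ← S.ee, TensorProduct.smul_tmul']
        | add x y hx hy => rw [smul_add, map_add, hx, hy]
      bn := by
        intro m v
        show G (algebraMap N T.B m) v = m • v
        induction v using TensorProduct.induction_on with
        | zero => simp
        | tmul v w => rw [hG, T.bn, TensorProduct.tmul_smul]
        | add x y hx hy => rw [smul_add, map_add, hx, hy]
      sm := by
        intro W hW1 hW2
        have hW2' : ∀ (x : K ⊗[E] Y), ∀ w ∈ W, F x w ∈ W := hW2
        have hW3 : ∀ (f : Module.End N S.V), ∀ w ∈ W, LinearMap.rTensor T.V f w ∈ W := by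
          intro f
          have hf := dens f
          induction hf using Algebra.adjoin_induction with
          | mem x hx =>
            obtain ⟨k, rfl⟩ := hx
            intro w hw
            rw [← hFk]
            exact hW2' _ w hw
          | algebraMap r =>
            intro w hw
            rw [hFr]
            exact hW1 r w hw
          | add x y _ _ hx hy =>
            intro w hw
            rw [LinearMap.rTensor_add, LinearMap.add_apply]
            exact W.add_mem (hx w hw) (hy w hw)
          | mul x y _ _ hx hy =>
            intro w hw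
            rw [LinearMap.rTensor_mul, Module.End.mul_apply]
            exact hx _ (hy w hw)
        let W0 : AddSubgroup T.V :=
          { carrier := {w | b i0 ⊗ₜ[N] w ∈ W}
            zero_mem' := by
              show b i0 ⊗ₜ[N] (0 : T.V) ∈ W
              rw [TensorProduct.tmul_zero]
              exact W.zero_mem
            add_mem' := by
              intro x y hx hy
              show b i0 ⊗ₜ[N] (x + y) ∈ W
              rw [TensorProduct.tmul_add]
              exact W.add_mem hx hy
            neg_mem' := by
              intro x hx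
              show b i0 ⊗ₜ[N] (-x) ∈ W
              rw [TensorProduct.tmul_neg]
              exact W.neg_mem hx }
        have h1 : ∀ (m : N), ∀ w ∈ W0, m • w ∈ W0 := by
          intro m w hw
          show b i0 ⊗ₜ[N] (m • w) ∈ W
          rw [TensorProduct.tmul_smul]
          exact hW1 m _ hw
        have h2 : ∀ (y : Y), ∀ w ∈ W0, y • w ∈ W0 := by
          intro y w hw
          show b i0 ⊗ₜ[N] (y • w) ∈ W
          have := hW2' (1 ⊗ₜ y) _ hw
          rw [hF, one_smul] at this
          exact this
        rcases T.sm W0 h1 h2 with h | h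
        · left
          rw [eq_bot_iff]
          intro x hx
          have hz : ∀ i, Λ i x = 0 := by
            intro i
            have h3 := hW3 (φ i (b i0)) x hx
            rw [hφ] at h3
            have h4 : Λ i x ∈ W0 := h3
            rw [h] at h4
            exact h4
          show x = 0
          rw [hΛs x]
          apply Finset.sum_eq_zero
          intro i _
          rw [hz i, TensorProduct.tmul_zero]
        · right
          rw [eq_top_iff]
          intro x _
          rw [hΛs x]
          apply W.sum_mem
          intro i _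
          rw [← hunit i (Λ i x)]
          apply hW3
          have h4 : Λ i x ∈ W0 := by rw [h]; trivial
          exact h4
      full := by
        intro f hf1 hf2
        have hf2' : ∀ (x : K ⊗[E] Y) (v : S.V ⊗[N] T.V), f (F x v) = F x (f v) := hf2
        have hf3 : ∀ (ψ : Module.End N S.V) (w : S.V ⊗[N] T.V),
            f (LinearMap.rTensor T.V ψ w) = LinearMap.rTensor T.V ψ (f w) := by
          intro ψ
          have hψ := dens ψ
          induction hψ using Algebra.adjoin_induction with
          | mem x hx =>
            obtain ⟨k, rfl⟩ := hx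
            intro w
            rw [← hFk, ← hFk]
            exact hf2' _ w
          | algebraMap r =>
            intro w
            rw [hFr, hFr]
            exact hf1 r w
          | add x y _ _ hx hy =>
            intro w
            rw [LinearMap.rTensor_add, LinearMap.add_apply, LinearMap.add_apply, map_add, hx, hy]
          | mul x y _ _ hx hy =>
            intro w
            rw [LinearMap.rTensor_mul, Module.End.mul_apply, Module.End.mul_apply, hx, hy]
        let ψ : T.V →+ T.V :=
          { toFun := fun w => Λ i0 (f (b i0 ⊗ₜ[N] w))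
            map_zero' := by rw [TensorProduct.tmul_zero, map_zero, map_zero]
            map_add' := fun x y => by rw [TensorProduct.tmul_add, map_add, map_add] }
        have hψ : ∀ w, f (b i0 ⊗ₜ[N] w) = b i0 ⊗ₜ[N] ψ w := by
          intro w
          have := hf3 (φ i0 (b i0)) (b i0 ⊗ₜ[N] w)
          rw [hunit, hφ] at this
          exact this
        have hΛb : ∀ w, Λ i0 (b i0 ⊗ₜ[N] w) = w := by
          intro w
          rw [hΛ, hb0, one_smul]
        obtain ⟨c, hc⟩ := T.full ψ (by
          intro m w
          show Λ i0 (f (b i0 ⊗ₜ[N] (m • w))) = m • Λ i0 (f (b i0 ⊗ₜ[N] w))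
          rw [TensorProduct.tmul_smul, hf1, map_smul]) (by
          intro y w
          have h5 := hf2' (1 ⊗ₜ y) (b i0 ⊗ₜ[N] w)
          rw [hF, one_smul, hψ, hψ, hF, one_smul] at h5
          have h6 := congrArg (Λ i0) h5
          rw [hΛb, hΛb] at h6
          exact h6)
        refine ⟨c, fun v => ?_⟩
        show f v = G c v
        have h7 : ∀ i w, f (b i ⊗ₜ[N] w) = G c (b i ⊗ₜ[N] w) := by
          intro i w
          rw [← hunit i w, hf3, hψ, hc, hunit, hunit, hG]
        have h8 := hΛs v
        calc f v = f (∑ i, b i ⊗ₜ Λ i v) := congrArg f h8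
          _ = ∑ i, f (b i ⊗ₜ Λ i v) := map_sum f _ _
          _ = ∑ i, G c (b i ⊗ₜ Λ i v) := Finset.sum_congr rfl fun i _ => h7 i _
          _ = G c (∑ i, b i ⊗ₜ Λ i v) := (map_sum (G c) _ _).symm
          _ = G c v := congrArg (G c) h8.symm
      rn := by
        intro g m v
        induction v using TensorProduct.induction_on with
        | zero => simp
        | tmul v w =>
          rw [TensorProduct.smul_tmul', hR', hR', S.rn, TensorProduct.smul_tmul']
        | add x y hx hy => rw [smul_add, map_add, hx, hy, map_add, smul_add]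
      rx := by
        intro g x v
        show R' g (F x v) = F x (R' g v)
        induction x using TensorProduct.induction_on with
        | zero => simp
        | tmul k y =>
          induction v using TensorProduct.induction_on with
          | zero => simp
          | tmul v w => rw [hF, hR', hR', hF, S.rx, T.rx]
          | add x y hx hy => rw [map_add, map_add, hx, hy, map_add, map_add]
        | add x y hx hy =>
          rw [map_add, LinearMap.add_apply, LinearMap.add_apply, map_add, hx, hy]
      co := by
        intro g h v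
        show R' g (R' h v) = G (algebraMap N T.B (a g h) * T.U g h) (R' (g * h) v)
        induction v using TensorProduct.induction_on with
        | zero => simp
        | tmul v w =>
          rw [hR', hR', hR', hG, S.co, T.co, mul_smul, T.bn, hS.ua, S.bn,
            TensorProduct.smul_tmul]
        | add x y hx hy => rw [map_add, map_add, hx, hy, map_add, map_add] }
  exact ⟨T', AlgEquiv.refl, fun g h => rfl⟩

end

end Pool.Agent.Helper20.KZ
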